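import Pool.Agent.X207.GurExt

/-!
# MP_40d550_an : a non-separable weakly compactly generated Gurarii space
-/

open Filter Topology

namespace Pool.Agent.Results.MP_40d550_an.WeaklyCompactlyGenerated

/-- Gurarii spaces: isometric embeddings `f : X → E` of subspaces `X` of finite-dimensional spaces
`Y` extend to `ε`-isometric embeddings of `Y`, for every `ε > 0`. -/
def IsGurarii (E : Type) [NormedAddCommGroup E] [NormedSpace ℝ E] : Prop :=
  ∀ (Y : Type) [NormedAddCommGroup Y] [NormedSpace ℝ Y] [FiniteDimensional ℝ Y]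
    (X : Submodule ℝ Y) (f : X →ₗ[ℝ] E), (∀ x, ‖f x‖ = ‖x‖) → ∀ ε : ℝ, 0 < ε →
    ∃ g : Y →ₗ[ℝ] E, (∀ x : X, g x = f x) ∧
      ∀ y, (1 + ε)⁻¹ * ‖y‖ ≤ ‖g y‖ ∧ ‖g y‖ ≤ (1 + ε) * ‖y‖

/-- Weakly compactly generated: some weakly compact set has dense linear span. -/
def IsWCG (E : Type) [NormedAddCommGroup E] [NormedSpace ℝ E] : Prop :=
  ∃ K : Set E, IsCompact (toWeakSpace ℝ E '' K) ∧ Dense (Submodule.span ℝ K : Set E)

/-- Weakly Lindelöf determined: for some set `Γ` there is a one-to-one linear operator from the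
dual into `ℝ^Γ`, continuous from the weak-star topology to the product topology, all of whose
values have countable support. -/
def IsWLD (E : Type) [NormedAddCommGroup E] [NormedSpace ℝ E] : Prop :=
  ∃ (Γ : Type) (T : WeakDual ℝ E →ₗ[ℝ] (Γ → ℝ)), Continuous T ∧ Function.Injective T ∧
    ∀ φ, {γ | T φ γ ≠ 0}.Countable

open Pool.Agent.X207.Gur

/-- Weak convergence from convergence of all values of functionals. -/
lemma tendsto_weak {E : Type} [NormedAddCommGroup E] [NormedSpace ℝ E] {ι : Type*} {l : Filter ι}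
    {f : ι → E} (h : ∀ φ : StrongDual ℝ E, Tendsto (fun i => φ (f i)) l (𝓝 0)) :
    Tendsto (fun i => toWeakSpace ℝ E (f i)) l (𝓝 (toWeakSpace ℝ E 0)) := by
  have hi : Topology.IsInducing (fun x : WeakSpace ℝ E => fun φ : StrongDual ℝ E =>
      (topDualPairing ℝ E).flip x φ) := ⟨rfl⟩
  rw [hi.tendsto_nhds_iff, tendsto_pi_nhds]
  intro φ
  have := h φ
  have h0 : (topDualPairing ℝ E).flip (toWeakSpace ℝ E 0) φ = 0 := map_zero φ
  rw [h0]
  exact this

/-- The scaled generators tend weakly to zero. -/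
lemma tendsto_sg : Tendsto (fun β => toWeakSpace ℝ GG (sg β)) cofinite
    (𝓝 (toWeakSpace ℝ GG 0)) := by
  apply tendsto_weak
  intro φ
  rw [Metric.tendsto_nhds]
  intro ε hε
  rw [eventually_cofinite]
  refine (finite_large' φ hε).subset ?_
  intro β hβ
  simpa using hβ

lemma dense_span : Dense (Submodule.span ℝ (insert 0 (Set.range sg)) : Set GG) := by
  have hsub : ∀ β, gg β ∈ Submodule.span ℝ (insert 0 (Set.range sg)) := by
    intro β
    have h1 : gg β = ((2 : ℝ) ^ β.rank) • sg β := by
      rw [sg, smul_smul, ← mul_pow]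
      norm_num
    rw [h1]
    exact Submodule.smul_mem _ _ (Submodule.subset_span (Set.mem_insert_of_mem _ ⟨β, rfl⟩))
  intro x
  rw [Metric.mem_closure_iff]
  intro ε hε
  obtain ⟨z, hz, hd⟩ := Metric.mem_closure_iff.1 x.2 ε hε
  obtain ⟨c, hc⟩ := (Finsupp.mem_span_range_iff_exists_finsupp).1 hz
  refine ⟨c.sum fun i r => r • gg i, ?_, ?_⟩
  · exact Submodule.sum_mem _ fun i _ => Submodule.smul_mem _ _ (hsub i)
  · have h1 : ((c.sum fun i r => r • gg i : GG) : L) = z := by
      rw [← hc, Finsupp.sum, Submodule.coe_sum]; rfl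
    rw [Subtype.dist_eq, h1]
    exact hd

lemma eq_of_gg {φ ψ : StrongDual ℝ GG} (h : ∀ β, φ (gg β) = ψ (gg β)) : φ = ψ := by
  apply ContinuousLinearMap.ext_on dense_span
  intro x hx
  rcases hx with rfl | ⟨β, rfl⟩
  · simp
  · simp only [sg, map_smul, h]

/-- **Main theorem.** There is a non-separable Gurarii space which is weakly compactly generated
and weakly Lindelöf determined. -/
theorem result : ∃ (E : Type) (_ : NormedAddCommGroup E) (_ : NormedSpace ℝ E),
    CompleteSpace E ∧ IsGurarii E ∧ ¬ TopologicalSpace.SeparableSpace E ∧ IsWCG E ∧ IsWLD E := by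
  refine ⟨GG, inferInstance, inferInstance, inferInstance, ?_, not_separable, ?_, ?_⟩
  · intro Y _ _ _ X f hf ε hε
    exact gurarii X f hf hε
  · refine ⟨insert 0 (Set.range sg), ?_, dense_span⟩
    rw [Set.image_insert_eq, ← Set.range_comp]
    exact tendsto_sg.isCompact_insert_range_of_cofinite
  · refine ⟨Idx, { toFun := fun φ β => φ (gg β), map_add' := ?_, map_smul' := ?_ }, ?_, ?_, ?_⟩
    · intro φ ψ; rfl
    · intro r φ; rfl
    · exact continuous_pi fun β => WeakDual.eval_continuous (gg β)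
    · intro φ ψ h
      have h1 : ∀ β, (WeakDual.toStrongDual φ) (gg β) = (WeakDual.toStrongDual ψ) (gg β) :=
        fun β => congrFun h β
      exact WeakDual.toStrongDual.injective (eq_of_gg h1)
    · intro φ
      exact countable_support (WeakDual.toStrongDual φ)

end Pool.Agent.Results.MP_40d550_an.WeaklyCompactlyGenerated
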